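import Pool.Agent.Helper79_WRA.StmtB
import Pool.Agent.Helper51_AWC.Defect

/-!
WRA, modules DZU and DZN: a character of defect zero is alone in its block, and the labels of
characters of stabilisers of nontrivial chains vanish on classes of defect zero.
-/

open scoped BigOperators

noncomputable section

namespace Pool.Agent.Helper79_WRA.H48

open Pool.Agent.Helper51_AWC

theorem dzu (hPos : PosStmt) : DzuStmt := by
  intro ℓ hℓ M hM hℓM G _ _ hcore ξ hξ ξ' hξ' hlab
  classical
  by_contra hne
  have := Fintype.ofFinite G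
  have := Fintype.ofFinite (ConjClasses G)
  have hξ1 : ξ ∈ Irr G := hξ.1
  apply hξ.2
  rw [(hPos ℓ M hℓM G hcore).1 ξ hξ1]
  have hint : IsIntegral ℤ ((Nat.card G : ℂ) / ξ 1) := by
    rw [Nat.card_eq_fintype_card, codeg_eq hξ1]
    apply IsIntegral.sum
    intro K _
    exact (omega_integral _ hξ1 _).mul (irr_integral hξ1 _)
  rw [← red_zero (M := M), red_eq_iff hint isIntegral_zero]
  rw [Nat.card_eq_fintype_card, codeg_eq hξ1]
  have h1 := sum_classes (irr_one_ne hξ') (fun g h => irr_conj hξ1 g h)
  rw [irr_orth_ne hξ' hξ1 (fun h => hne h.symm)] at h1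
  have h2 : ∑ K : ConjClasses G,
      omega (MonoidHom.id G) ξ' (Quotient.out K) * ξ (Quotient.out K)⁻¹ = 0 := by
    rcases mul_eq_zero.1 h1.symm with h3 | h3
    · exact absurd h3 (irr_one_ne hξ')
    · exact h3
  rw [← h2]
  apply Cong.sum
  intro K _
  refine Cong.mul_right ?_ (irr_integral hξ1 _)
  rw [← red_eq_iff (omega_integral _ hξ1 _) (omega_integral _ hξ' _)]
  exact congrFun hlab _

theorem card_centralizer_conj {G : Type} [Group G] {g x : G} (h : IsConj g x) :
    Nat.card (Subgroup.centralizer {g} : Subgroup G) =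
      Nat.card (Subgroup.centralizer {x} : Subgroup G) := by
  obtain ⟨c, rfl⟩ := isConj_iff.1 h
  rw [← card_conjS c (Subgroup.centralizer {g})]
  congr 1
  have : conjS c (Subgroup.centralizer {g}) = Subgroup.centralizer {c * g * c⁻¹} := by
    ext y
    rw [mem_conjS, Subgroup.mem_centralizer_singleton_iff, Subgroup.mem_centralizer_singleton_iff]
    constructor
    · intro hy
      calc y * (c * g * c⁻¹) = c * (c⁻¹ * y * c * g) * c⁻¹ := by group
        _ = c * (g * (c⁻¹ * y * c)) * c⁻¹ := by rw [hy]
        _ = c * g * c⁻¹ * y := by group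
    · intro hy
      calc c⁻¹ * y * c * g = c⁻¹ * (y * (c * g * c⁻¹)) * c := by group
        _ = c⁻¹ * (c * g * c⁻¹ * y) * c := by rw [hy]
        _ = g * (c⁻¹ * y * c) := by group
  rw [this]

theorem exists_smallest {G : Type} [Group G] [Finite G] {d : Finset (Subgroup G)}
    (hch : IsChain (· ≤ ·) (d : Set (Subgroup G))) (hne : ∃ D ∈ d, D ≠ ⊥) :
    ∃ D₁ ∈ d, D₁ ≠ ⊥ ∧ ∀ D ∈ d, D ≠ ⊥ → D₁ ≤ D := by
  classical
  obtain ⟨D₀, hD₀, hD₀'⟩ := hne
  obtain ⟨D₁, hD₁, hmin⟩ := Finset.exists_min_image (d.filter fun D => D ≠ ⊥)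
    (fun D => Nat.card D) ⟨D₀, Finset.mem_filter.2 ⟨hD₀, hD₀'⟩⟩
  rw [Finset.mem_filter] at hD₁
  refine ⟨D₁, hD₁.1, hD₁.2, ?_⟩
  intro D hD hD'
  rcases chain_total hch hD₁.1 hD with h | h
  · exact h
  · have h1 := hmin D (Finset.mem_filter.2 ⟨hD, hD'⟩)
    have : D = D₁ := by
      apply Subgroup.eq_of_le_of_card_ge h
      exact h1
    exact this.ge

theorem dzn (hKill : KillStmt) : DznStmt := by
  intro ℓ hℓ M hM hℓM G _ _ d hpg hch hne a ha g hg
  classical
  have := Fintype.ofFinite G
  obtain ⟨D₁, hD₁, hD₁n, hmin⟩ := exists_smallest hch hne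
  have hle : D₁ ≤ stab d := by
    intro x hx
    rw [mem_stab]
    intro D hD
    by_cases hD0 : D = ⊥
    · subst hD0
      ext y
      rw [mem_conjS, Subgroup.mem_bot, Subgroup.mem_bot]
      constructor
      · intro h
        have : y = x * (x⁻¹ * y * x) * x⁻¹ := by group
        rw [this, h]; group
      · rintro rfl; group
    · have hxD : x ∈ D := hmin D hD hD0 hx
      rw [← mem_normalizer_iff_conjS]
      exact Subgroup.le_normalizer hxD
  have hnorm : stab d ≤ Subgroup.normalizer (D₁ : Set G) := by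
    intro x hx
    rw [mem_normalizer_iff_conjS]
    exact mem_stab.1 hx D₁ hD₁
  have hN : (D₁.subgroupOf (stab d)).Normal := by
    constructor
    intro x hx y
    rw [Subgroup.mem_subgroupOf] at hx ⊢
    have := (Subgroup.mem_normalizer_iff.1 (hnorm y.2) x).1 hx
    simpa using this
  have hP : IsPGroup ℓ (D₁.subgroupOf (stab d)) :=
    (hpg D₁ hD₁).of_injective (Subgroup.subgroupOfEquivOfLe hle).toMonoidHom
      (Subgroup.subgroupOfEquivOfLe hle).injective
  have key := hKill ℓ M hℓM (stab d) (D₁.subgroupOf (stab d)) hN hP (fun h => a h) ha.2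
    (fun h => if IsConj g (h : G) then (1 : ℂ) else 0) (by
      intro x y
      have : IsConj g ((y * x * y⁻¹ : stab d) : G) ↔ IsConj g (x : G) := by
        have h1 : IsConj (x : G) ((y * x * y⁻¹ : stab d) : G) := isConj_iff.2 ⟨y, by simp⟩
        exact ⟨fun h' => h'.trans h1.symm, fun h' => h'.trans h1⟩
      simp only [this]) (by
      intro x
      split_ifs
      · exact isIntegral_one
      · exact isIntegral_zero) (by
      intro x hx
      have hgx : IsConj g (x : G) := by
        by_contra hcon
        exact hx (if_neg hcon)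
      by_contra hcon
      push Not at hcon
      apply hg
      rw [card_centralizer_conj hgx]
      have h1 : D₁ ≤ Subgroup.centralizer {(x : G)} := by
        intro y hy
        rw [Subgroup.mem_centralizer_singleton_iff]
        have := hcon ⟨y, hle hy⟩ (by rw [Subgroup.mem_subgroupOf]; exact hy)
        exact congrArg Subtype.val this
      have h2 : ℓ ∣ Nat.card D₁ := by
        obtain ⟨k, hk⟩ := (IsPGroup.iff_card (p := ℓ)).1 (hpg D₁ hD₁)
        rw [hk]
        apply dvd_pow_self
        rintro rfl
        apply hD₁n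
        rw [pow_zero] at hk
        exact (Subgroup.card_eq_one).1 hk
      exact h2.trans (Subgroup.card_dvd_of_le h1))
  have hval : val (fun h : stab d => if IsConj g (h : G) then (1 : ℂ) else 0)
      (fun h : stab d => a h) = omega (MonoidHom.id G) a g := by
    rw [omega_IrrS ha]
    have := Fintype.ofFinite (stab d)
    rw [val_eq, omega_eq]
    congr 1
    apply Finset.sum_congr rfl
    intro h _
    by_cases hc : IsConj g (h : G)
    · rw [if_pos hc, if_pos (show IsConj g ((stab d).subtype h) from hc), one_mul]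
    · rw [if_neg hc, if_neg (show ¬ IsConj g ((stab d).subtype h) from hc), zero_mul]
  rw [hval] at key
  show red M (omega (MonoidHom.id G) a g) = 0
  rw [← red_zero (M := M), red_eq_iff (omega_IrrS_integral ha g) isIntegral_zero]
  exact key

end Pool.Agent.Helper79_WRA.H48
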